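import Pool.Agent.R870.AP.Line2

/-!
# MP_b7926e_nt: random sections of a fixed variety and the neighbourhoods of the special varieties of
dimension one

Let `V_0` be a fixed subvariety of the torus `G = 𝔾_m ^ n` which is defined over `ℚ` (by Laurent
polynomials with integral coefficients), and let `V_c` be the subvariety defined by `k` Laurent
polynomials with arbitrary finite nonempty supports `A_1, …, A_k` and the integral coefficients `c`;
there are `(2 H + 1) ^ N` vectors `c` of size at most `H`, where `N = ∑ |A_j|`.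

We show: for all but `C exp (κ B) (2 H + 1) ^ (N - k)` of the `c` all the algebraic points `x` of the section
`V_0 ∩ V_c` which are close to a special variety (torsion coset) of dimension at most one, that is
`∑ h (x_i / y_i) ≤ B` for a point `y` on such a special variety of any complexity, lie on the
positive-dimensional cosets of algebraic tori which are contained in `V_0`.

For `B = 0`: if the codimension of `V_0 ∩ V_c` is at least two (for instance if `V_0` is a hypersurface
and `k = 1`) all the points of `V_0 ∩ V_c` on special varieties of dimension at most one are atypical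
subvarieties of `V_0 ∩ V_c`. So `100 %` of the sections of `V_0` by integral Laurent polynomials have no
atypical intersections at all with the special varieties of dimension at most one, outside of the
anomalous part of `V_0`; and they even have no points at a distance `≤ θ log H` of them, `θ < k / κ`.
-/

set_option autoImplicit false

namespace Pool.Agent.Results.MP_b7926e_nt.NearSpecialCurves

open Pool.Agent.R870.RZ (Coeff)
open Pool.Agent.R870.AP

/-- The algebraic points of the variety `V_c`: the common zeros with nonzero coordinates of the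
Laurent polynomials `∑_{α ∈ A_j} c_jα x ^ α`. -/
def variety {n k : ℕ} (A : Fin k → Finset (Fin n → ℤ)) (c : Coeff A → ℤ) :
    Set (Fin n → AlgebraicClosure ℚ) :=
  {x | (∀ l, x l ≠ 0) ∧ ∀ j, ∑ α : {α // α ∈ A j}, (c ⟨j, α⟩ : AlgebraicClosure ℚ) *
    ∏ l, x l ^ (α : Fin n → ℤ) l = 0}

/-- The point lies on a special variety `T` of dimension at most one, that is a translate
`T = {(z_1 t ^ m_1, …, z_n t ^ m_n) | t ≠ 0}` of a torus of dimension at most one by a torsion
point `z`. -/
def OnSpecialCurve {n : ℕ} (y : Fin n → AlgebraicClosure ℚ) : Prop :=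
  ∃ (m : Fin n → ℤ) (z : Fin n → AlgebraicClosure ℚ), (∀ i, ∃ N : ℕ, 0 < N ∧ z i ^ N = 1) ∧
    ∃ t : AlgebraicClosure ℚ, t ≠ 0 ∧ ∀ i, y i = z i * t ^ m i

/-- Let `V_0` be defined by finitely many Laurent polynomials with integral coefficients `c₀`
(and the supports `A₀`), and let `A_1, …, A_k` be finite nonempty subsets of `ℤ^n` and `N = ∑ |A_j|`.
There are `C`, `κ` such that for all `H` and `B ≥ 0` and for all integral vectors `c` of size at most
`H`, with at most `C exp (κ B) (2 H + 1) ^ (N - k)` exceptions: every algebraic point `x` of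
`V_0 ∩ V_c` with `∑ h (x_i / y_i) ≤ B` for a point `y` on a special variety of dimension at most one
lies on a coset `{(x_1 s ^ b_1, …, x_n s ^ b_n) | s ≠ 0}`, `b ≠ 0`, of a one-dimensional torus which is
contained in `V_0`. -/
theorem result {n r k : ℕ} (A₀ : Fin r → Finset (Fin n → ℤ)) (c₀ : Coeff A₀ → ℤ)
    (A : Fin k → Finset (Fin n → ℤ)) (hA : ∀ j, (A j).Nonempty) :
    ∃ C κ : ℝ, ∀ (H : ℕ) (B : ℝ), 0 ≤ B → ∃ E : Finset (Coeff A → ℤ),
      (E.card : ℝ) * (2 * H + 1) ^ k ≤ C * Real.exp (κ * B) * (2 * H + 1) ^ ∑ j, (A j).card ∧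
      ∀ c : Coeff A → ℤ, (∀ x, |c x| ≤ H) → c ∉ E →
        ∀ x ∈ variety A₀ c₀ ∩ variety A c, ∀ y, OnSpecialCurve y →
          ∑ i, NumberField.absLogHeight₁ (x i / y i) ≤ B →
          ∃ b : Fin n → ℤ, b ≠ 0 ∧
            ∀ s : AlgebraicClosure ℚ, s ≠ 0 → (fun i => x i * s ^ b i) ∈ variety A₀ c₀ := by
  classical
  let a : Fin r → (Fin n → ℤ) → ℤ := fun q α => if h : α ∈ A₀ q then c₀ ⟨q, ⟨α, h⟩⟩ else 0
  have ha : ∀ q, ∀ y : Fin n → AlgebraicClosure ℚ, lval (A₀ q) (a q) y =
      ∑ α : {α // α ∈ A₀ q}, (c₀ ⟨q, α⟩ : AlgebraicClosure ℚ) *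
        ∏ l, y l ^ (α : Fin n → ℤ) l := by
    intro q y
    rw [lval, ← Finset.sum_coe_sort]
    refine Finset.sum_congr rfl fun α _ => ?_
    have h1 : a q α = c₀ ⟨q, α⟩ := by
      simp only [a]
      rw [dif_pos α.2]
    rw [h1]
  obtain ⟨C, κ, hC⟩ := line_main2 A₀ a A hA
  refine ⟨C, κ, fun H B hB => ?_⟩
  obtain ⟨E, hE, hE'⟩ := hC H B hB
  refine ⟨E, hE, fun c hc hcE x hx y hy hxy => ?_⟩
  obtain ⟨m, z, hz, t, ht, hyz⟩ := hy
  have hz0 : ∀ i, z i ≠ 0 := by
    intro i h
    obtain ⟨N, hN, h1⟩ := hz i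
    rw [h, zero_pow hN.ne'] at h1
    exact zero_ne_one h1
  have hy0 : ∀ i, y i ≠ 0 := fun i => by
    rw [hyz]
    exact mul_ne_zero (hz0 i) (zpow_ne_zero _ ht)
  have hxw : ∀ i, x i = z i * (x i / y i) * t ^ m i := by
    intro i
    have h1 := hy0 i
    have h2 : z i * (x i / y i) * t ^ m i = (x i / y i) * y i := by
      rw [hyz i]
      ring
    rw [h2, div_mul_cancel₀ _ h1]
  have hx' : (fun i => z i * (x i / y i) * t ^ m i) = x := funext fun i => (hxw i).symm
  obtain ⟨b, hb, hbs⟩ := hE' c hc hcE z (fun i => x i / y i) m t hz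
    (fun i => div_ne_zero (hx.1.1 i) (hy0 i)) ht (by simp only [← abs1_eq]; exact hxy)
    (fun q => by rw [hx', ha]; exact hx.1.2 q)
    (fun j => by
      have h1 := hx.2.2 j
      rw [← h1]
      refine Finset.sum_congr rfl fun α _ => ?_
      congr 1
      exact Finset.prod_congr rfl fun l _ => by rw [← hxw l])
  refine ⟨b, hb, fun s hs => ⟨fun l => mul_ne_zero (hx.1.1 l) (zpow_ne_zero _ hs), fun q => ?_⟩⟩
  have h1 := hbs s hs q
  rw [← ha]
  rw [← h1]
  congr 1
  funext i
  rw [← hxw i]

end Pool.Agent.Results.MP_b7926e_nt.NearSpecialCurves
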