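import Pool.Agent.R870.RZ.Main

/-!
# MP_b7926e_nt: 100 % of all systems of Laurent polynomials with integral coefficients have only
typical intersections with the torsion cosets of small complexity

Let `A_1, …, A_k` be arbitrary finite nonempty sets of exponents in `ℤ^n`, `N = ∑ |A_j|`, and for an
integral vector `c` of size at most `H` (there are `(2 H + 1) ^ N` of them) let `V_c` be the
subvariety of the torus `(ℂ^×)^n` defined by the `k` Laurent polynomials
`f_j = ∑_{α ∈ A_j} c_jα x ^ α`.

We show that for all but `C Δ ^ ((n + 1) ^ 2) (2 H + 1) ^ (N - 1)` of the `c` the variety `V_c` has only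
typical intersections with all torsion cosets `T` of complexity at most `Δ`: every irreducible subset
of `V_c ∩ T` has dimension at most `dim T - k`; in particular `V_c` itself has dimension `n - k` or is
empty, and it has no point on the `T` of dimension less than `k`. So 100 % of the `V_c` have no atypical
intersection with torsion cosets of complexity up to `H ^ θ`, `θ < 1 / (n + 1) ^ 2`.

The same holds for the cosets of the subgroups of complexity at most `Δ` through the points of an
arbitrary finite set `G` of complex points, for instance a ball in a finitely generated group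
(the Mordell-Lang situation), with at most `C |G| Δ ^ (n (n + 1)) (2 H + 1) ^ (N - 1)` exceptions.
-/

set_option autoImplicit false

namespace Pool.Agent.Results.MP_b7926e_nt.RandomSystems

open Pool.Agent.R870.RZ

/-- All intersections of `V_c` (given by `k` equations) with the coset `T` of dimension
`n - rank M` are typical: the irreducible subsets of `V_c ∩ T` have dimension at most
`dim T - k`. -/
def TypicalOn {n k : ℕ} (A : Fin k → Finset (Fin n → ℤ)) (c : Coeff A → ℤ)
    (M : Submodule ℤ (Fin n → ℤ)) (η : Fin n → ℂ) : Prop :=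
  ∀ W : Set (Fin n → ℂ), W ⊆ system A c → W ⊆ coset M η → (idealOf W).IsPrime →
    dim W + (k : Cardinal) + (Module.finrank ℤ M : Cardinal) ≤ (n : Cardinal)

/-- the torsion points of order at most `Δ` -/
theorem torsion_points (n Δ : ℕ) : ∃ G : Finset (Fin n → ℂ),
    G.card ≤ Δ ^ (n + 1) ∧ ∀ η : Fin n → ℂ, ∀ m : ℕ, 1 ≤ m → m ≤ Δ → (∀ l, η l ^ m = 1) →
      η ∈ G := by
  classical
  refine ⟨(Finset.Icc 1 Δ).biUnion fun m =>
    Fintype.piFinset fun _ : Fin n => (Polynomial.nthRoots m (1 : ℂ)).toFinset, ?_, ?_⟩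
  · refine Finset.card_biUnion_le.trans ?_
    calc ∑ m ∈ Finset.Icc 1 Δ, (Fintype.piFinset fun _ : Fin n =>
          (Polynomial.nthRoots m (1 : ℂ)).toFinset).card ≤ ∑ _m ∈ Finset.Icc 1 Δ, Δ ^ n := by
          refine Finset.sum_le_sum fun m hm => ?_
          rw [Fintype.card_piFinset, Finset.prod_const, Finset.card_univ, Fintype.card_fin]
          refine Nat.pow_le_pow_left ?_ n
          exact ((Multiset.toFinset_card_le _).trans (Polynomial.card_nthRoots m _)).trans
            (Finset.mem_Icc.1 hm).2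
      _ = Δ ^ (n + 1) := by
          rw [Finset.sum_const, Nat.card_Icc, smul_eq_mul, Nat.add_sub_cancel, pow_succ]
          ring
  · intro η m hm hmΔ hη
    rw [Finset.mem_biUnion]
    refine ⟨m, Finset.mem_Icc.2 ⟨hm, hmΔ⟩, ?_⟩
    rw [Fintype.mem_piFinset]
    intro l
    rw [Multiset.mem_toFinset, Polynomial.mem_nthRoots (by omega)]
    exact hη l

/-- Let `A_1, …, A_k` be finite nonempty subsets of `ℤ^n` and `N = ∑ |A_j|`. There is a `C` such that
for all `H` and all `Δ ≥ 1`:

(1) for all but `C Δ ^ ((n + 1) ^ 2) (2 H + 1) ^ (N - 1)` integral vectors `c` of size at most `H` the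
system `V_c` has only typical intersections with the torsion cosets `T = {y | y ^ a = η ^ a, a ∈ M}`,
where `M` has complexity at most `Δ` and `η` is a torsion point of order at most `Δ`;

(2) for every finite set `G` of points, for all but `C |G| Δ ^ (n (n + 1)) (2 H + 1) ^ (N - 1)` of
the `c` the system `V_c` has only typical intersections with the cosets
`T = {y | y ^ a = η ^ a, a ∈ M}`, where `M` has complexity at most `Δ` and `η ∈ G`. -/
theorem result {n k : ℕ} (A : Fin k → Finset (Fin n → ℤ)) (hA : ∀ j, (A j).Nonempty) :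
    ∃ C : ℕ, ∀ H Δ : ℕ, 1 ≤ Δ →
      (∃ E : Finset (Coeff A → ℤ),
        E.card * (2 * H + 1) ≤ C * Δ ^ ((n + 1) ^ 2) * (2 * H + 1) ^ ∑ j, (A j).card ∧
        ∀ c : Coeff A → ℤ, (∀ x, |c x| ≤ H) → c ∉ E →
          ∀ M : Submodule ℤ (Fin n → ℤ), Complexity Δ M →
            ∀ η : Fin n → ℂ, (∃ m : ℕ, 1 ≤ m ∧ m ≤ Δ ∧ ∀ l, η l ^ m = 1) →
              TypicalOn A c M η) ∧
      ∀ G : Finset (Fin n → ℂ), ∃ E : Finset (Coeff A → ℤ),
        E.card * (2 * H + 1) ≤
          C * G.card * Δ ^ (n * (n + 1)) * (2 * H + 1) ^ ∑ j, (A j).card ∧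
        ∀ c : Coeff A → ℤ, (∀ x, |c x| ≤ H) → c ∉ E →
          ∀ M : Submodule ℤ (Fin n → ℤ), Complexity Δ M → ∀ η ∈ G, TypicalOn A c M η := by
  obtain ⟨C, hC⟩ := main A hA
  have hN : Fintype.card (Coeff A) = ∑ j, (A j).card := by
    rw [Fintype.card_sigma]
    exact Finset.sum_congr rfl fun j _ => Fintype.card_coe _
  rw [hN] at hC
  refine ⟨C, fun H Δ hΔ => ⟨?_, fun G => hC H Δ hΔ G⟩⟩
  obtain ⟨G, hG, hG'⟩ := torsion_points n Δ
  obtain ⟨E, hE, hE'⟩ := hC H Δ hΔ G
  refine ⟨E, hE.trans ?_, fun c hc hcE M hM η hη => ?_⟩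
  · refine Nat.mul_le_mul_right _ ?_
    calc C * G.card * Δ ^ (n * (n + 1)) ≤ C * Δ ^ (n + 1) * Δ ^ (n * (n + 1)) :=
          Nat.mul_le_mul_right _ (Nat.mul_le_mul_left _ hG)
      _ = C * Δ ^ ((n + 1) ^ 2) := by
          rw [mul_assoc, ← pow_add]
          congr 2
          ring
  · obtain ⟨m, hm, hmΔ, hη⟩ := hη
    exact hE' c hc hcE M hM η (hG' η m hm hmΔ hη)

end Pool.Agent.Results.MP_b7926e_nt.RandomSystems
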