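import Pool.Agent.R728.RC.Each
import Pool.Agent.Results.MP_b7926e_nt.RandomSystems

/-!
# No atypical intersections for all systems in random residue classes

Let `A_1, …, A_k` (`k ≥ 1`) be finite nonempty sets of exponents in `ℤ^n` and `N = ∑ |A_j|`; for
integral `c` let `V_c` be the subvariety of the torus `(ℂ^×)^n` defined by the `k` Laurent polynomials
`f_j = ∑_{α ∈ A_j} c_jα x ^ α`. Let `𝓜` be a set of moduli with `∑ m ^ (-s) < ∞` and let `X m` be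
random elements of any sets `Y m`, each value of which has probability at most `K m ^ (-θ)`; no
independence is assumed. Let `φ m` be any maps from the integral vectors to `Y m`, for instance
the reduction modulo `m` (`θ = N`). Let `ρ, κ ≥ 0` and `ρ (N - 1) + κ (n + 1) ^ 2 ≤ θ - s`. Almost
surely, for all but finitely many `m` in `𝓜`, for ALL integral `c` with `|c| ≤ m ^ ρ` and
`φ m c = X m`, the variety `V_c` has only typical intersections with all torsion cosets of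
complexity at most `m ^ κ`. For the reduction modulo squareful numbers or modulo the powers of a
number, `ρ > 1` is allowed.
-/

set_option autoImplicit false

namespace Pool.Agent.Results.MP_b7926e_nt.RandomResidues

open MeasureTheory Pool.Agent.R870.RZ

/-- All intersections of `V_c` (given by `k` equations) with the coset `T` of dimension
`n - rank M` are typical: the irreducible subsets of `V_c ∩ T` have dimension at most
`dim T - k`. -/
def TypicalOn {n k : ℕ} (A : Fin k → Finset (Fin n → ℤ)) (c : Coeff A → ℤ)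
    (M : Submodule ℤ (Fin n → ℤ)) (η : Fin n → ℂ) : Prop :=
  ∀ W : Set (Fin n → ℂ), W ⊆ system A c → W ⊆ coset M η → (idealOf W).IsPrime →
    dim W + (k : Cardinal) + (Module.finrank ℤ M : Cardinal) ≤ (n : Cardinal)

/-- all intersections of `V_c` with the torsion cosets of complexity at most `Δ` by torsion points
of order at most `Δ` are typical -/
def TypicalUpTo {n k : ℕ} (A : Fin k → Finset (Fin n → ℤ)) (Δ : ℕ) (c : Coeff A → ℤ) : Prop :=
  ∀ M : Submodule ℤ (Fin n → ℤ), Complexity Δ M →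
    ∀ η : Fin n → ℂ, (∃ e : ℕ, 1 ≤ e ∧ e ≤ Δ ∧ ∀ l, η l ^ e = 1) → TypicalOn A c M η

/-- **Theorem.** Let `A_1, …, A_k`, `k ≥ 1`, be finite nonempty subsets of `ℤ^n` and `N = ∑ |A_j|`.
Let `𝓜` be a set of positive integers with a convergent sum of the `m ^ (-s)`, let `X m` be random
elements of arbitrary sets `Y m`, each value of which has probability at most `K m ^ (-θ)` (no
independence is assumed), and let `φ m` be any maps from the integral coefficient vectors to `Y m`;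
let `ρ, κ ≥ 0` and `ρ (N - 1) + κ (n + 1) ^ 2 ≤ θ - s`. Almost surely, for all but finitely many
`m` in `𝓜`, for ALL integral coefficient vectors `c` with `|c x| ≤ m ^ ρ` and `φ m c = X m`, the
system `V_c` has only typical intersections with the torsion cosets `{y | y ^ a = η ^ a, a ∈ M}`,
where `M` has complexity at most `m ^ κ` and `η` is a torsion point of order at most `m ^ κ`. -/
theorem result {n k : ℕ} (hk : 1 ≤ k) (A : Fin k → Finset (Fin n → ℤ))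
    (hA : ∀ j, (A j).Nonempty) (𝓜 : Set ℕ) (s θ K ρ κ : ℝ) (Ω : Type) [MeasurableSpace Ω]
    (P : Measure Ω) (Y : ℕ → Type) (X : ∀ m : ℕ, Ω → Y m) (φ : ∀ m : ℕ, (Coeff A → ℤ) → Y m)
    (h0 : ∀ m ∈ 𝓜, 0 < m) (hsum : Summable fun m : 𝓜 => ((m : ℕ) : ℝ) ^ (-s))
    (hX : ∀ m ∈ 𝓜, ∀ y : Y m, P {ω | X m ω = y} ≤ ENNReal.ofReal (K * (m : ℝ) ^ (-θ)))
    (hρ : 0 ≤ ρ) (hκ : 0 ≤ κ)
    (h : ρ * (((∑ j, (A j).card : ℕ) : ℝ) - 1) + κ * ((n : ℝ) + 1) ^ 2 ≤ θ - s) :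
    ∀ᵐ ω ∂P, ∃ m₀ : ℕ, ∀ m ∈ 𝓜, m₀ ≤ m → ∀ c : Coeff A → ℤ,
      (∀ x, |(c x : ℝ)| ≤ (m : ℝ) ^ ρ) → φ m c = X m ω →
      TypicalUpTo A ⌊(m : ℝ) ^ κ⌋₊ c := by
  classical
  obtain ⟨C, hC⟩ := RandomSystems.result A hA
  obtain ⟨N, hN⟩ : ∃ N, ∑ j, (A j).card = N + 1 := by
    have h1 : 1 ≤ (A ⟨0, hk⟩).card := (hA _).card_pos
    have h2 : (A ⟨0, hk⟩).card ≤ ∑ j, (A j).card :=
      Finset.single_le_sum (f := fun j => (A j).card) (fun _ _ => Nat.zero_le _)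
        (Finset.mem_univ _)
    exact ⟨∑ j, (A j).card - 1, by omega⟩
  rw [hN] at hC h
  have hmain := Pool.Agent.R728.RC.eventually_each (𝓜 := 𝓜) (s := s) (θ := θ) (A := K)
    (D := C * 3 ^ N) (X := X) (φ := φ) (P := P)
    (F := fun m => {c : Coeff A → ℤ | (∀ x, |(c x : ℝ)| ≤ (m : ℝ) ^ ρ) ∧
      ¬ TypicalUpTo A ⌊(m : ℝ) ^ κ⌋₊ c}) h0 hsum hX (by
      intro m hm
      have hm1 : (1 : ℝ) ≤ (m : ℝ) := by exact_mod_cast h0 m hm
      have hm0 : (0 : ℝ) < (m : ℝ) := by linarith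
      have hκ1 : (1 : ℝ) ≤ (m : ℝ) ^ κ := Real.one_le_rpow hm1 hκ
      have hρ1 : (1 : ℝ) ≤ (m : ℝ) ^ ρ := Real.one_le_rpow hm1 hρ
      have hΔ : 1 ≤ ⌊(m : ℝ) ^ κ⌋₊ := Nat.le_floor (by exact_mod_cast hκ1)
      obtain ⟨⟨E, hE1, hE2⟩, -⟩ := hC ⌊(m : ℝ) ^ ρ⌋₊ ⌊(m : ℝ) ^ κ⌋₊ hΔ
      have hsub : {c : Coeff A → ℤ | (∀ x, |(c x : ℝ)| ≤ (m : ℝ) ^ ρ) ∧
          ¬ TypicalUpTo A ⌊(m : ℝ) ^ κ⌋₊ c} ⊆ (E : Set (Coeff A → ℤ)) := by
        rintro c ⟨h1, h2⟩
        by_contra hcE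
        apply h2
        refine fun M hM η hη => hE2 c (fun x => ?_) hcE M hM η hη
        have h3 : (((c x).natAbs : ℕ) : ℝ) ≤ (m : ℝ) ^ ρ := by
          rw [Nat.cast_natAbs]
          exact_mod_cast h1 x
        rw [Int.abs_eq_natAbs]
        exact_mod_cast Nat.le_floor h3
      refine ⟨E.finite_toSet.subset hsub, ?_⟩
      have h1 : ({c : Coeff A → ℤ | (∀ x, |(c x : ℝ)| ≤ (m : ℝ) ^ ρ) ∧
          ¬ TypicalUpTo A ⌊(m : ℝ) ^ κ⌋₊ c}.ncard) ≤ E.card := by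
        rw [← Set.ncard_coe_finset]
        exact Set.ncard_le_ncard hsub E.finite_toSet
      have h2 : E.card ≤ C * ⌊(m : ℝ) ^ κ⌋₊ ^ ((n + 1) ^ 2) * (2 * ⌊(m : ℝ) ^ ρ⌋₊ + 1) ^ N := by
        have h3 : E.card * (2 * ⌊(m : ℝ) ^ ρ⌋₊ + 1) ≤
            (C * ⌊(m : ℝ) ^ κ⌋₊ ^ ((n + 1) ^ 2) * (2 * ⌊(m : ℝ) ^ ρ⌋₊ + 1) ^ N) *
              (2 * ⌊(m : ℝ) ^ ρ⌋₊ + 1) := by
          refine hE1.trans (le_of_eq ?_)
          rw [pow_succ]
          ring
        exact Nat.le_of_mul_le_mul_right h3 (by positivity)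
      have h4 := Nat.floor_le (by linarith : (0 : ℝ) ≤ (m : ℝ) ^ κ)
      have h5 := Nat.floor_le (by linarith : (0 : ℝ) ≤ (m : ℝ) ^ ρ)
      calc (({c : Coeff A → ℤ | (∀ x, |(c x : ℝ)| ≤ (m : ℝ) ^ ρ) ∧
            ¬ TypicalUpTo A ⌊(m : ℝ) ^ κ⌋₊ c}.ncard : ℕ) : ℝ)
          ≤ ((C * ⌊(m : ℝ) ^ κ⌋₊ ^ ((n + 1) ^ 2) * (2 * ⌊(m : ℝ) ^ ρ⌋₊ + 1) ^ N : ℕ) : ℝ) := by
            exact_mod_cast h1.trans h2
        _ = C * (⌊(m : ℝ) ^ κ⌋₊ : ℝ) ^ ((n + 1) ^ 2) * (2 * (⌊(m : ℝ) ^ ρ⌋₊ : ℝ) + 1) ^ N := by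
            push_cast
            ring
        _ ≤ C * ((m : ℝ) ^ κ) ^ ((n + 1) ^ 2) * (3 * (m : ℝ) ^ ρ) ^ N := by
            gcongr
            linarith
        _ = C * 3 ^ N * (m : ℝ) ^ (ρ * N + κ * ((n : ℝ) + 1) ^ 2) := by
            rw [mul_pow, ← Real.rpow_natCast ((m : ℝ) ^ κ), ← Real.rpow_natCast ((m : ℝ) ^ ρ),
              ← Real.rpow_mul hm0.le, ← Real.rpow_mul hm0.le, Real.rpow_add hm0]
            push_cast
            ring
        _ ≤ C * 3 ^ N * (m : ℝ) ^ (θ - s) := by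
            apply mul_le_mul_of_nonneg_left _ (by positivity)
            apply Real.rpow_le_rpow_of_exponent_le hm1
            push_cast at h
            linarith)
  filter_upwards [hmain] with ω hω
  obtain ⟨m₀, hm₀⟩ := hω
  refine ⟨m₀, fun m hm hmm c h1 h2 => ?_⟩
  by_contra hcon
  exact hm₀ m hm hmm c ⟨h1, hcon⟩ h2

end Pool.Agent.Results.MP_b7926e_nt.RandomResidues
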