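import Pool.Agent.Results.MP_b7926e_nt.RandomSystems
import Pool.Agent.R482.ST.Vec

/-!
# All systems of Laurent polynomials near the vectors of a sequence have typical intersections only

Let `f_k`, `k = 0, 1, 2, …`, be positive functions on `(a₀, ∞)`, `a₀ ≥ 0`, such that `f_k(t) / t` is nondecreasing, and such
that the sequence `f_k(t)` has exponent of convergence at most `τ` for each `t > a₀`: for instance `f_k(t) = v_k t`
(dilatations; `τ` the exponent of convergence of `v_k > 0`), `f_k(t) = t ^ (v_k)` for exponents `v_k ≥ 1` (`τ = 0`), or the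
orbits `f_k(t) = g (g (⋯ g (t)))` of any map `g` with `g(t) > t` and `g(t) / t` nondecreasing (`τ = 0`).
Let `V_c` be the subvariety of the torus `(ℂ^×)^n` given by `k ≥ 1` Laurent polynomials with given supports with `m` monomials
altogether and integral coefficients `c`. Let `κ > 0` and `θ < 1`. For all vectors `u` in `ℝ^m` (maximum norm), `‖u‖ > a₀`,
outside a set of Hausdorff dimension at most `(m - 1 + κ (n + 1)² + τ) / (1 - θ)` and all constants, for all but finitely many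
`l`: ALL `V_c` with `c` near `(r / ‖u‖) u`, `r = f_l(‖u‖)`, have only typical intersections with the torsion cosets of
complexity at most `r ^ κ`; and the same for the cosets of algebraic subgroups of complexity at most `r ^ κ` by the points of
a given countable set (such as the set of all algebraic points), with `κ n (n + 1)` in place of `κ (n + 1)²`.
-/

set_option autoImplicit false

namespace Pool.Agent.Results.MP_b7926e_nt.StarshapedSystems

open RandomSystems (TypicalOn)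
open Pool.Agent.R870.RZ (Coeff Complexity)

/-- the functions `f n` are positive on `(a, ∞)`, `a ≥ 0`, and `f n x / x` is nondecreasing there -/
def Starshaped (a : ℝ) (f : ℕ → ℝ → ℝ) : Prop :=
  0 ≤ a ∧ ∀ n : ℕ, ∀ x y : ℝ, a < x → x ≤ y → 0 < f n x ∧ f n x / x ≤ f n y / y

/-- for each `x > a` the exponent of convergence of the sequence `f n x` is at most `τ` -/
def ExpLe (a : ℝ) (f : ℕ → ℝ → ℝ) (τ : ℝ) : Prop :=
  ∀ x : ℝ, a < x → ∀ t : ℝ, τ < t → Summable (fun n : ℕ => (f n x) ^ (-t))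

/-- the components of `z` differ by at most `ρ` from those of `(g ‖u‖ / ‖u‖) u` -/
def Near {ι : Type} [Fintype ι] (g : ℝ → ℝ) (ρ : ℝ) (u : ι → ℝ) (z : ι → ℤ) : Prop :=
  ∀ i, |(z i : ℝ) - g ‖u‖ / ‖u‖ * u i| ≤ ρ

lemma compl_mono {n : ℕ} {Δ Δ' : ℕ} (h : Δ ≤ Δ') {M : Submodule ℤ (Fin n → ℤ)} (hM : Complexity Δ M) :
    Complexity Δ' M := by
  obtain ⟨v, h1, h2, h3⟩ := hM
  exact ⟨v, h1, h2, fun i l => (h3 i l).trans (by exact_mod_cast h)⟩

/-- **Theorem.** Let `A_1, …, A_k`, `k ≥ 1`, be nonempty supports of Laurent polynomials in `n` variables, `m = ∑ |A_j|`,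
`κ > 0`, `f` starshaped functions on `(a₀, ∞)` of exponent of convergence at most `τ ≥ 0` and `θ < 1`. (1) There is a set `E`
of Hausdorff dimension at most `(m - 1 + κ (n + 1)² + τ) / (1 - θ)` such that for each `u` outside `E`, `‖u‖ > a₀`, each `c` and
all but finitely many `l`, for ALL integral coefficient vectors `z` near `(r / ‖u‖) u`, `r = f_l(‖u‖)` (`Near`, with
`c r ^ θ`), and all `Δ ≤ r ^ κ` all intersections of `V_z` with the cosets of the algebraic subgroups of complexity at most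
`Δ` by the torsion points of order at most `Δ` are typical. (2) For each countable set `G` of points there is a set `E` of
Hausdorff dimension at most `(m - 1 + κ n (n + 1) + τ) / (1 - θ)` such that for each `u` outside `E`, `‖u‖ > a₀`, each point `η`
of `G`, each `c` and all but finitely many `l` this holds for the cosets by `η`.
The functions `v_n x`, `v_n > 0`, are starshaped on `(0, ∞)`, of exponent `τ` if `v` has exponent of convergence at most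
`τ`; the functions `x ^ (v_n)`, `v_n ≥ 1`, are starshaped on `(1, ∞)`, of exponent `0` if the sums of `exp (-t v_n)` converge
for `t > 0`; and the iterates of a map `g` with `g(x) > x` for `x > a` and `g(x) / x` nondecreasing are starshaped on
`(a, ∞)`, of exponent `0`. -/
theorem result :
    (∀ (n k : ℕ) (A : Fin k → Finset (Fin n → ℤ)), 1 ≤ k → (∀ j, (A j).Nonempty) → ∀ κ : ℝ, 0 < κ →
      ∀ (f : ℕ → ℝ → ℝ) (a₀ τ θ : ℝ), Starshaped a₀ f → 0 ≤ τ → ExpLe a₀ f τ → θ < 1 →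
      (∃ E : Set (Coeff A → ℝ),
        dimH E ≤ ENNReal.ofReal ((((∑ j, (A j).card : ℕ) : ℝ) - 1 + κ * ((n : ℝ) + 1) ^ 2 + τ) / (1 - θ)) ∧
        ∀ u : Coeff A → ℝ, a₀ < ‖u‖ → u ∉ E → ∀ c : ℝ, ∃ l₀ : ℕ, ∀ l : ℕ, l₀ ≤ l → ∀ z : Coeff A → ℤ,
          Near (f l) (c * (f l ‖u‖) ^ θ) u z → ∀ Δ : ℕ, (Δ : ℝ) ≤ (f l ‖u‖) ^ κ →
            ∀ M : Submodule ℤ (Fin n → ℤ), Complexity Δ M →
              ∀ η : Fin n → ℂ, (∃ m : ℕ, 1 ≤ m ∧ m ≤ Δ ∧ ∀ i, η i ^ m = 1) → TypicalOn A z M η) ∧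
      ∀ G : Set (Fin n → ℂ), G.Countable → ∃ E : Set (Coeff A → ℝ),
        dimH E ≤ ENNReal.ofReal ((((∑ j, (A j).card : ℕ) : ℝ) - 1 + κ * ((n : ℝ) * ((n : ℝ) + 1)) + τ) / (1 - θ)) ∧
        ∀ u : Coeff A → ℝ, a₀ < ‖u‖ → u ∉ E → ∀ η ∈ G, ∀ c : ℝ, ∃ l₀ : ℕ, ∀ l : ℕ, l₀ ≤ l → ∀ z : Coeff A → ℤ,
          Near (f l) (c * (f l ‖u‖) ^ θ) u z → ∀ Δ : ℕ, (Δ : ℝ) ≤ (f l ‖u‖) ^ κ →
            ∀ M : Submodule ℤ (Fin n → ℤ), Complexity Δ M → TypicalOn A z M η) ∧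
    (∀ (v : ℕ → ℝ) (τ : ℝ), (∀ n, 0 < v n) → (∀ t : ℝ, τ < t → Summable (fun n : ℕ => (v n) ^ (-t))) →
      Starshaped 0 (fun n x => v n * x) ∧ ExpLe 0 (fun n x => v n * x) τ) ∧
    (∀ v : ℕ → ℝ, (∀ n, 1 ≤ v n) → (∀ t : ℝ, 0 < t → Summable fun n : ℕ => Real.exp (-(t * v n))) →
      Starshaped 1 (fun n x => x ^ (v n)) ∧ ExpLe 1 (fun n x => x ^ (v n)) 0) ∧
    (∀ (a : ℝ) (g : ℝ → ℝ), 0 ≤ a → (∀ x y : ℝ, a < x → x ≤ y → g x / x ≤ g y / y) → (∀ x : ℝ, a < x → x < g x) →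
      Starshaped a (fun n x => g^[n] x) ∧ ExpLe a (fun n x => g^[n] x) 0) := by
  refine ⟨fun n k A hk hA κ hκ f a₀ τ θ hf hτ hv hθ => ?_, Pool.Agent.R482.ST.ex_mul, Pool.Agent.R482.ST.ex_pow, Pool.Agent.R482.ST.ex_orbit⟩
  classical
  obtain ⟨C, hC⟩ := RandomSystems.result A hA
  have hm : 1 ≤ ∑ j, (A j).card := by
    have h1 : (A ⟨0, hk⟩).card ≤ ∑ j, (A j).card := Finset.single_le_sum (f := fun j => (A j).card)
      (fun j _ => Nat.zero_le _) (Finset.mem_univ (⟨0, hk⟩ : Fin k))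
    have h2 : 1 ≤ (A ⟨0, hk⟩).card := Finset.card_pos.2 (hA _)
    omega
  have hm' : (0 : ℝ) ≤ ((∑ j, (A j).card : ℕ) : ℝ) - 1 := by
    have : (1 : ℝ) ≤ ((∑ j, (A j).card : ℕ) : ℝ) := by exact_mod_cast hm
    linarith
  have hfin : ∀ (H : ℕ) (P : (Coeff A → ℤ) → Prop), {z : Coeff A → ℤ | (∀ i, |z i| ≤ (H : ℤ)) ∧ P z}.Finite := by
    intro H P
    refine (Pool.Agent.R482.ST.finite_int (ι := Coeff A) (H : ℝ)).subset fun z hz i => ?_
    have := hz.1 i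
    exact_mod_cast this
  refine ⟨?_, fun G hG => ?_⟩
  · obtain ⟨E, hE, h⟩ := Pool.Agent.R482.ST.vec_prop (ι := Coeff A)
      (fun z X => ∃ Δ : ℕ, (Δ : ℝ) ≤ (max X 0) ^ κ ∧ ∃ M : Submodule ℤ (Fin n → ℤ), Complexity Δ M ∧
        ∃ η : Fin n → ℂ, (∃ m : ℕ, 1 ≤ m ∧ m ≤ Δ ∧ ∀ i, η i ^ m = 1) ∧ ¬ TypicalOn A z M η)
      (fun z X Y hXY ⟨Δ, h1, h2⟩ => ⟨Δ, h1.trans (Real.rpow_le_rpow (le_max_right _ _)
        (max_le_max hXY le_rfl) hκ.le), h2⟩)
      (s := ((∑ j, (A j).card : ℕ) : ℝ) - 1 + κ * ((n : ℝ) + 1) ^ 2) (by positivity) (fun ε hε => by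
        refine ⟨(C : ℝ) * 3 ^ (∑ j, (A j).card), fun H hH => ?_⟩
        have hH1 : (1 : ℝ) ≤ H := by exact_mod_cast hH
        have hHκ : (1 : ℝ) ≤ (H : ℝ) ^ κ := Real.one_le_rpow hH1 hκ.le
        have hΔ1 : 1 ≤ ⌊(H : ℝ) ^ κ⌋₊ := Nat.le_floor (by exact_mod_cast hHκ)
        obtain ⟨⟨E, hE1, hE2⟩, -⟩ := hC H ⌊(H : ℝ) ^ κ⌋₊ hΔ1
        have hsub : {z : Coeff A → ℤ | (∀ i, |z i| ≤ (H : ℤ)) ∧ ∃ Δ : ℕ, (Δ : ℝ) ≤ (max (H : ℝ) 0) ^ κ ∧
            ∃ M : Submodule ℤ (Fin n → ℤ), Complexity Δ M ∧ ∃ η : Fin n → ℂ,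
              (∃ m : ℕ, 1 ≤ m ∧ m ≤ Δ ∧ ∀ i, η i ^ m = 1) ∧ ¬ TypicalOn A z M η} ⊆ (E : Set (Coeff A → ℤ)) := by
          rintro z ⟨h1, Δ, h2, M, h3, η, ⟨m, h4, h5, h6⟩, h7⟩
          rw [max_eq_left (by linarith)] at h2
          have h8 : Δ ≤ ⌊(H : ℝ) ^ κ⌋₊ := Nat.le_floor h2
          by_contra hcon
          exact h7 (hE2 z h1 hcon M (compl_mono h8 h3) η ⟨m, h4, h5.trans h8, h6⟩)
        have h9 := Set.ncard_le_ncard hsub (Finset.finite_toSet _)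
        rw [Set.ncard_coe_finset] at h9
        refine (Nat.cast_le.2 h9).trans ?_
        have h10 := Pool.Agent.R482.ST.count_bound (κ := κ) hH (Nat.floor_le (by positivity)) hm hE1
        refine h10.trans (mul_le_mul_of_nonneg_left ?_ (by positivity))
        apply Real.rpow_le_rpow_of_exponent_le hH1
        push_cast
        linarith) f a₀ τ θ hf hτ hv hθ
    refine ⟨E, hE, fun u hu huE c => ?_⟩
    obtain ⟨l₀, hl⟩ := h u hu huE c
    refine ⟨l₀, fun l hl1 z hz Δ hΔ M hM η hη => ?_⟩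
    by_contra hcon
    have hpos : 0 < f l ‖u‖ := (hf.2 l _ _ hu le_rfl).1
    refine hl l hl1 z hz ⟨Δ, ?_, M, hM, η, hη, hcon⟩
    rw [max_eq_left hpos.le]
    exact hΔ
  · have hone : ∀ η : Fin n → ℂ, ∃ E : Set (Coeff A → ℝ),
        dimH E ≤ ENNReal.ofReal ((((∑ j, (A j).card : ℕ) : ℝ) - 1 + κ * ((n : ℝ) * ((n : ℝ) + 1)) + τ) / (1 - θ)) ∧
        ∀ u : Coeff A → ℝ, a₀ < ‖u‖ → u ∉ E → ∀ c : ℝ, ∃ l₀ : ℕ, ∀ l : ℕ, l₀ ≤ l → ∀ z : Coeff A → ℤ,
          Near (f l) (c * (f l ‖u‖) ^ θ) u z → ∀ Δ : ℕ, (Δ : ℝ) ≤ (f l ‖u‖) ^ κ →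
            ∀ M : Submodule ℤ (Fin n → ℤ), Complexity Δ M → TypicalOn A z M η := by
      intro η
      obtain ⟨E, hE, h⟩ := Pool.Agent.R482.ST.vec_prop (ι := Coeff A)
        (fun z X => ∃ Δ : ℕ, (Δ : ℝ) ≤ (max X 0) ^ κ ∧ ∃ M : Submodule ℤ (Fin n → ℤ), Complexity Δ M ∧
          ¬ TypicalOn A z M η)
        (fun z X Y hXY ⟨Δ, h1, h2⟩ => ⟨Δ, h1.trans (Real.rpow_le_rpow (le_max_right _ _)
          (max_le_max hXY le_rfl) hκ.le), h2⟩)
        (s := ((∑ j, (A j).card : ℕ) : ℝ) - 1 + κ * ((n : ℝ) * ((n : ℝ) + 1))) (by positivity) (fun ε hε => by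
          refine ⟨((C * ({η} : Finset (Fin n → ℂ)).card : ℕ) : ℝ) * 3 ^ (∑ j, (A j).card), fun H hH => ?_⟩
          have hH1 : (1 : ℝ) ≤ H := by exact_mod_cast hH
          have hHκ : (1 : ℝ) ≤ (H : ℝ) ^ κ := Real.one_le_rpow hH1 hκ.le
          have hΔ1 : 1 ≤ ⌊(H : ℝ) ^ κ⌋₊ := Nat.le_floor (by exact_mod_cast hHκ)
          obtain ⟨-, hG2⟩ := hC H ⌊(H : ℝ) ^ κ⌋₊ hΔ1
          obtain ⟨E, hE1, hE2⟩ := hG2 {η}
          have hsub : {z : Coeff A → ℤ | (∀ i, |z i| ≤ (H : ℤ)) ∧ ∃ Δ : ℕ, (Δ : ℝ) ≤ (max (H : ℝ) 0) ^ κ ∧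
              ∃ M : Submodule ℤ (Fin n → ℤ), Complexity Δ M ∧ ¬ TypicalOn A z M η} ⊆ (E : Set (Coeff A → ℤ)) := by
            rintro z ⟨h1, Δ, h2, M, h3, h7⟩
            rw [max_eq_left (by linarith)] at h2
            have h8 : Δ ≤ ⌊(H : ℝ) ^ κ⌋₊ := Nat.le_floor h2
            by_contra hcon
            exact h7 (hE2 z h1 hcon M (compl_mono h8 h3) η (Finset.mem_singleton_self η))
          have h9 := Set.ncard_le_ncard hsub (Finset.finite_toSet _)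
          rw [Set.ncard_coe_finset] at h9
          refine (Nat.cast_le.2 h9).trans ?_
          have h10 := Pool.Agent.R482.ST.count_bound (κ := κ) hH (Nat.floor_le (by positivity)) hm hE1
          refine h10.trans (mul_le_mul_of_nonneg_left ?_ (by positivity))
          apply Real.rpow_le_rpow_of_exponent_le hH1
          push_cast
          linarith) f a₀ τ θ hf hτ hv hθ
      refine ⟨E, hE, fun u hu huE c => ?_⟩
      obtain ⟨l₀, hl⟩ := h u hu huE c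
      refine ⟨l₀, fun l hl1 z hz Δ hΔ M hM => ?_⟩
      by_contra hcon
      have hpos : 0 < f l ‖u‖ := (hf.2 l _ _ hu le_rfl).1
      refine hl l hl1 z hz ⟨Δ, ?_, M, hM, hcon⟩
      rw [max_eq_left hpos.le]
      exact hΔ
    choose F hF1 hF2 using hone
    refine ⟨⋃ η ∈ G, F η, ?_, fun u hu huE η hη => hF2 η u hu fun h => huE (Set.mem_biUnion hη h)⟩
    rw [dimH_bUnion hG]
    exact iSup₂_le fun η _ => hF1 η

end Pool.Agent.Results.MP_b7926e_nt.StarshapedSystems
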